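import Mathlib
set_option autoImplicit false
namespace Pool.Agent.Results.MP_7c4268_al.Counter

/-- The surviving relations on S, inside the free abelian group with basis S
(G and the free abelian group are written additively). -/
def RS {G : Type} [AddCommGroup G] (S : Set (Sym2 G)) : Set (FreeAbelianGroup S) :=
  {r | ∃ (g h k : G) (h1 : s(h, k) ∈ S) (h2 : s(g, h + k) ∈ S) (h3 : s(g, h) ∈ S)
    (h4 : s(g + h, k) ∈ S),
    r = FreeAbelianGroup.of ⟨s(h, k), h1⟩ + FreeAbelianGroup.of ⟨s(g, h + k), h2⟩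
      - FreeAbelianGroup.of ⟨s(g, h), h3⟩ - FreeAbelianGroup.of ⟨s(g + h, k), h4⟩}

def L : List (ZMod 18 × ZMod 18) := [(12, 1), (13, 4), (17, 11), (10, 9), (12, 7), (1, 15),
  (4, 2), (5, 11), (15, 9), (5, 2), (13, 12), (13, 13), (13, 17), (13, 10), (13, 1), (7, 1),
  (7, 5), (7, 16), (7, 7), (8, 4), (8, 15), (8, 6), (12, 11), (12, 2), (5, 9), (12, 9), (13, 8),
  (17, 4), (10, 11), (1, 2), (1, 8), (5, 4), (16, 11), (7, 2), (4, 4), (15, 11), (6, 2),
  (11, 11), (2, 2), (9, 2)]

def T : List (ZMod 18 × ZMod 18) := [(13, 13), (13, 17), (7, 1), (7, 16), (12, 11)]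

def inL (a b : ZMod 18) : Bool := decide ((a, b) ∈ L) || decide ((b, a) ∈ L)

def wt (a b : ZMod 18) : ZMod 2 := if (a, b) ∈ T ∨ (b, a) ∈ T then 1 else 0

def S0 : Set (Sym2 (ZMod 18)) :=
  {p | Sym2.lift ⟨inL, fun a b => by simp [inL, Bool.or_comm]⟩ p = true}

def ph : Sym2 (ZMod 18) → ZMod 2 := Sym2.lift ⟨wt, fun a b => by simp [wt, or_comm]⟩

lemma mem_S0 (a b : ZMod 18) : s(a, b) ∈ S0 ↔ inL a b = true := Iff.rfl

lemma key : ∀ g h : ZMod 18, inL g h = true → ∀ k : ZMod 18, inL h k = true →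
    inL g (h + k) = true → inL (g + h) k = true →
    wt h k + wt g (h + k) - wt g h - wt (g + h) k = 0 := by
  decide +kernel

noncomputable def e (a b : ZMod 18) : FreeAbelianGroup S0 :=
  if h : inL a b = true then FreeAbelianGroup.of ⟨s(a, b), h⟩ else 0

lemma rel (g h k p q : ZMod 18) (H : p = h + k ∧ q = g + h ∧ inL h k = true ∧ inL g p = true ∧
    inL g h = true ∧ inL q k = true) :
    e h k + e g p - e g h - e q k ∈ AddSubgroup.closure (RS S0) := by
  obtain ⟨rfl, rfl, h1, h2, h3, h4⟩ := H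
  refine AddSubgroup.subset_closure ⟨g, h, k, h1, h2, h3, h4, ?_⟩
  simp only [e, h1, h2, h3, h4, dif_pos]

noncomputable def φ : FreeAbelianGroup S0 →+ ZMod 2 := FreeAbelianGroup.lift fun p => ph p.1

lemma φ_e (a b : ZMod 18) (h : inL a b = true) : φ (e a b) = wt a b := by
  simp only [e, h, dif_pos, φ, FreeAbelianGroup.lift_apply_of]
  rfl

noncomputable def z : FreeAbelianGroup S0 := e 13 12 - e 13 17 + e 7 5 - e 12 9 + e 17 4 - e 5 4

theorem result : ∃ (G : Type) (_ : AddCommGroup G) (_ : Finite G) (S : Set (Sym2 G)),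
    ¬ Module.Free ℤ (FreeAbelianGroup S ⧸ AddSubgroup.closure (RS S)) := by
  refine ⟨ZMod 18, inferInstance, inferInstance, S0, fun hf => ?_⟩
  have h2 : (2 : ℤ) • z ∈ AddSubgroup.closure (RS S0) := by
    have r0 := rel 13 12 1 13 7 (by decide)
    have r1 := rel 13 13 4 17 8 (by decide)
    have r2 := rel 13 17 11 10 12 (by decide)
    have r3 := rel 13 10 9 1 5 (by decide)
    have r4 := rel 13 12 7 1 7 (by decide)
    have r5 := rel 7 1 15 16 8 (by decide)
    have r6 := rel 8 4 2 6 12 (by decide)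
    have r7 := rel 7 5 11 16 12 (by decide)
    have r8 := rel 8 15 9 6 5 (by decide)
    have r9 := rel 7 5 2 7 12 (by decide)
    have r10 := rel 12 1 8 9 13 (by decide)
    have r11 := rel 13 4 4 8 17 (by decide)
    have r12 := rel 17 11 11 4 10 (by decide)
    have r13 := rel 10 9 2 11 1 (by decide)
    have r14 := rel 12 7 2 9 1 (by decide)
    have r15 := rel 1 15 11 8 16 (by decide)
    have r16 := rel 4 2 2 4 6 (by decide)
    have r17 := rel 5 11 11 4 16 (by decide)
    have r18 := rel 15 9 2 11 6 (by decide)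
    have r19 := rel 5 2 2 4 7 (by decide)
    have := (sub_mem (sub_mem (sub_mem (add_mem (add_mem (sub_mem (add_mem (add_mem (sub_mem (sub_mem (sub_mem (sub_mem (sub_mem (add_mem (add_mem (sub_mem (add_mem (add_mem (sub_mem (sub_mem (zero_mem _) r0) r1) r2) r3) r4) r5) r6) r7) r8) r9) r10) r11) r12) r13) r14) r15) r16) r17) r18) r19)
    convert this using 1
    unfold z
    abel
  have h3 : (2 : ℤ) • (QuotientAddGroup.mk z :
      FreeAbelianGroup S0 ⧸ AddSubgroup.closure (RS S0)) = 0 := by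
    rw [← QuotientAddGroup.mk_zsmul, QuotientAddGroup.eq_zero_iff]
    exact h2
  have h4 : z ∈ AddSubgroup.closure (RS S0) := by
    rw [← QuotientAddGroup.eq_zero_iff]
    exact (smul_eq_zero.1 h3).resolve_left (by norm_num)
  have h5 : AddSubgroup.closure (RS S0) ≤ φ.ker := by
    rw [AddSubgroup.closure_le]
    rintro _ ⟨g, h, k, h1, h2, h3, h4, rfl⟩
    simp only [SetLike.mem_coe, AddMonoidHom.mem_ker, map_add, map_sub, φ,
      FreeAbelianGroup.lift_apply_of]
    exact key g h h3 k h1 h2 h4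
  have h6 := h5 h4
  rw [AddMonoidHom.mem_ker, z] at h6
  simp only [map_add, map_sub] at h6
  rw [φ_e _ _ (by decide), φ_e _ _ (by decide), φ_e _ _ (by decide), φ_e _ _ (by decide),
    φ_e _ _ (by decide), φ_e _ _ (by decide)] at h6
  revert h6
  decide

end Pool.Agent.Results.MP_7c4268_al.Counter
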